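import Pool.Agent.V8H65.PW.Core

/-!
# Primitive ideals of `U(W)` and `U(Vir)` that are not kernels of maps to `Ã_k`

For every field `F` of characteristic zero, the enveloping algebras of the Witt algebra and of the
Virasoro algebra have primitive ideals which are not the kernel of any algebra map to any
`Ã_k = F[t, t⁻¹, ∂] ⊗ A_{k-1}`.  The ideals are not the obvious small ones: for the Witt algebra the
ideal is nonzero, and for the Virasoro algebra it contains `z` and is not generated by `z`.

Idea.  Let `W` act on `V = F[x_0, x_1]` by `e_m = A_m + B_m`, where `A_m = P^m (x_0 + β_0 m)`,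
`B_m = Q^m (x_1 + β_1 m)` and `P f = λ_0 f(x_0 - 1, x_1)`, `Q f = λ_1 f(x_0, x_1 - 1)` (the modules of
two points `λ_0 ≠ λ_1` of the punctured line, with `β_0 ≠ β_1` and `β_i ≠ 0, 1`).
* An iterated difference of the words `e_l e_m e_n e_r` acts as a multiple of
  `(P - Q)^8 (P^p Q^q + P^q Q^p)`; it follows that the image of `U(W)` in the operators on `V` contains
  `(P - Q)^17 F[P^±1, Q^±1]`.
* As `P - Q` is an invertible operator on `V`, the module `V` is simple; its annihilator is `Q_0`.
* If `Q_0` were the kernel of a map to `Ã_k`, then the elements `(P - Q)^17 g` would give an injective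
  linear map `Φ : F[P^±1, Q^±1] → Ã_k` with `Φ g * Φ h = Φ (g h) * Φ 1`.  For the locally nilpotent
  derivations `ad t`, `ad s_i`, `ad ∂_i` of `Ã_k` the degree of `Φ g` does not depend on `g ≠ 0`, as
  `F[P^±1, Q^±1]` is spanned by units.  Taking top derivatives one gets such a map with values in the
  common kernel `F[t, t⁻¹]` of these derivations, which is too small.
* A difference of the words `e_l e_m e_n` kills `V`, but not the module of three points, so `Q_0 ≠ 0`.
-/

set_option autoImplicit false

namespace Pool.Agent.Results.MP_4da284_al.LocalizedWeylFails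

/-- `L` is the Witt algebra `W = F[t, t⁻¹] ∂`: it has a basis `e_n = t^(n+1) ∂`, `n ∈ ℤ`, with
`[e_m, e_n] = (n - m) e_{m + n}`. -/
def IsWitt (F : Type) [Field F] (L : Type) [LieRing L] [LieAlgebra F L] : Prop :=
  ∃ e : Module.Basis ℤ F L, ∀ m n : ℤ, ⁅e m, e n⁆ = ((n - m : ℤ) : F) • e (m + n)

/-- `L` is the Virasoro algebra with central element `z`: it has a basis consisting of `z` and of
elements `e_n`, `n ∈ ℤ`, where `z` is central and
`[e_m, e_n] = (n - m) e_{m + n} + δ_{m + n, 0} (m³ - m) / 12 z`. -/
def IsVirasoro (F : Type) [Field F] (L : Type) [LieRing L] [LieAlgebra F L] (z : L) : Prop :=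
  ∃ e : Module.Basis (Option ℤ) F L, e none = z ∧ (∀ x : L, ⁅z, x⁆ = 0) ∧
    ∀ m n : ℤ, ⁅e (some m), e (some n)⁆ = ((n - m : ℤ) : F) • e (some (m + n)) +
      (if m + n = 0 then (((m ^ 3 - m : ℤ) : F) / 12) • z else 0)

/-- A two-sided ideal is primitive if it is the annihilator of a simple left module. -/
def IsPrimitive {U : Type} [Ring U] (P : TwoSidedIdeal U) : Prop :=
  ∃ (M : Type) (_ : AddCommGroup M) (_ : Module U M), IsSimpleModule U M ∧
    ∀ a : U, a ∈ P ↔ ∀ x : M, a • x = 0

/-- The Laurent polynomials over `F` in the variables `t_0, …, t_k`; the monomial `c t^v` is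
`AddMonoidAlgebra.single v c`. -/
abbrev Laurent (F : Type) [Field F] (k : ℕ) := AddMonoidAlgebra F (Fin (k + 1) → ℤ)

/-- Multiplication by `t_i^n`. -/
noncomputable def mulT {F : Type} [Field F] {k : ℕ} (i : Fin (k + 1)) (n : ℤ) :
    Module.End F (Laurent F k) :=
  LinearMap.mulLeft F (AddMonoidAlgebra.single (Pi.single i n) (1 : F) : Laurent F k)

/-- The partial derivative `∂_i`: the linear map with `t^v ↦ v_i t^(v - ε_i)`. -/
noncomputable def delT {F : Type} [Field F] {k : ℕ} (i : Fin (k + 1)) :
    Module.End F (Laurent F k) :=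
  Finsupp.linearCombination F (fun v : Fin (k + 1) → ℤ =>
    (AddMonoidAlgebra.single (v - Pi.single i 1) ((v i : ℤ) : F) : Laurent F k)) ∘ₗ
    (AddMonoidAlgebra.coeffLinearEquiv F).toLinearMap

/-- The algebra `Ã_{k+1} = F[t, t⁻¹, ∂] ⊗ A_k` over `F` (of characteristic zero): the algebra of
operators on the Laurent polynomials in `t = t_0` and `s_i = t_i`, `1 ≤ i ≤ k`, generated by the
multiplications by `t⁻¹`, `t`, `s_1, …, s_k` and the partial derivatives. -/
noncomputable def LocWeyl (F : Type) [Field F] (k : ℕ) :
    Subalgebra F (Module.End F (Laurent F k)) :=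
  Algebra.adjoin F ({mulT 0 (-1)} ∪ Set.range (fun i => mulT i 1) ∪ Set.range (fun i => delT i))

section

attribute [local instance 100] LieRing.ofAssociativeRing

variable {F : Type} [Field F] {L : Type} [LieRing L] [LieAlgebra F L]

/-- A linear map which is compatible with the brackets of basis elements extends to the enveloping
algebra. -/
lemma exists_lift {ι : Type} (e : Module.Basis ι F L) {A : Type} [Ring A] [Algebra F A]
    (f : L →ₗ[F] A) (h : ∀ i j, f ⁅e i, e j⁆ = f (e i) * f (e j) - f (e j) * f (e i)) :
    ∃ ρ : UniversalEnvelopingAlgebra F L →ₐ[F] A,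
      ∀ x, ρ (UniversalEnvelopingAlgebra.ι F x) = f x := by
  have h1 : ∀ x y, f ⁅x, y⁆ = f x * f y - f y * f x := by
    intro x y
    have hx : x ∈ Submodule.span F (Set.range e) := e.mem_span x
    have hy : y ∈ Submodule.span F (Set.range e) := e.mem_span y
    induction hx using Submodule.span_induction with
    | mem x hx =>
      obtain ⟨i, rfl⟩ := hx
      induction hy using Submodule.span_induction with
      | mem y hy =>
        obtain ⟨j, rfl⟩ := hy
        exact h i j
      | zero => simp
      | add y z _ _ hy hz =>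
        rw [lie_add, map_add, map_add, hy, hz]
        noncomm_ring
      | smul c y _ hy =>
        rw [lie_smul, map_smul, map_smul, hy, mul_smul_comm, smul_mul_assoc, smul_sub]
    | zero => simp
    | add x z _ _ hx hz =>
      rw [add_lie, map_add, map_add, hx, hz]
      noncomm_ring
    | smul c x _ hx =>
      rw [smul_lie, map_smul, map_smul, hx, mul_smul_comm, smul_mul_assoc, smul_sub]
  let g : L →ₗ⁅F⁆ A :=
    { toLinearMap := f
      map_lie' := fun {x y} => by
        change f ⁅x, y⁆ = ⁅f x, f y⁆
        rw [h1, LieRing.of_associative_ring_bracket] }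
  refine ⟨UniversalEnvelopingAlgebra.lift F g, fun x => ?_⟩
  rw [UniversalEnvelopingAlgebra.lift_ι_apply]
  rfl

end

/-- Let `F` be a field of characteristic zero.

1. If `L` is the Witt algebra, there is a nonzero primitive ideal of `U(L)` which is not the kernel of
an algebra map `U(L) → Ã_{k+1}` for any `k ≥ 0`.

2. If `L` is the Virasoro algebra with central element `z`, there is a primitive ideal of `U(L)`
containing `z`, different from the ideal generated by `z`, which is not the kernel of an algebra map
`U(L) → Ã_{k+1}` for any `k ≥ 0`. -/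
theorem result (F : Type) [Field F] [CharZero F] (L : Type) [LieRing L] [LieAlgebra F L] :
    (IsWitt F L → ∃ Q : TwoSidedIdeal (UniversalEnvelopingAlgebra F L), IsPrimitive Q ∧ Q ≠ ⊥ ∧
      ∀ (k : ℕ) (φ : UniversalEnvelopingAlgebra F L →ₐ[F] LocWeyl F k),
        ¬ ∀ a, a ∈ Q ↔ φ a = 0) ∧
    (∀ z : L, IsVirasoro F L z →
      ∃ Q : TwoSidedIdeal (UniversalEnvelopingAlgebra F L), IsPrimitive Q ∧
        UniversalEnvelopingAlgebra.ι F z ∈ Q ∧
        Q ≠ TwoSidedIdeal.span {UniversalEnvelopingAlgebra.ι F z} ∧
        ∀ (k : ℕ) (φ : UniversalEnvelopingAlgebra F L →ₐ[F] LocWeyl F k),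
          ¬ ∀ a, a ∈ Q ↔ φ a = 0) := by
  constructor
  · rintro ⟨e, he⟩
    obtain ⟨Q, h1, -, h3, h4⟩ := Pool.Agent.V8H65.PW.core (F := F)
      (fun m => UniversalEnvelopingAlgebra.ι F (e m)) ∅ (by
        intro A _ _ E0 hE
        obtain ⟨ρ, hρ⟩ := exists_lift e (e.constr F E0) (by
          intro m n
          rw [he, map_smul, e.constr_basis, e.constr_basis, e.constr_basis, hE])
        refine ⟨ρ, fun m => ?_, fun z hz => absurd hz (Set.notMem_empty z)⟩
        rw [hρ, e.constr_basis])
    refine ⟨Q, h1, ?_, h4⟩
    intro h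
    apply h3
    rw [h]
    symm
    rw [eq_bot_iff, TwoSidedIdeal.span_le]
    exact Set.empty_subset _
  · rintro z ⟨e, hz, hc, he⟩
    obtain ⟨Q, h1, h2, h3, h4⟩ := Pool.Agent.V8H65.PW.core (F := F)
      (fun m => UniversalEnvelopingAlgebra.ι F (e (some m)))
      {UniversalEnvelopingAlgebra.ι F z} (by
        intro A _ _ E0 hE
        obtain ⟨ρ, hρ⟩ := exists_lift e (e.constr F (fun o => Option.elim o 0 E0)) (by
          intro i j
          rcases i with _ | m
          · rw [hz, hc, map_zero, ← hz, e.constr_basis]
            simp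
          · rcases j with _ | n
            · rw [hz, ← lie_skew, hc, neg_zero, map_zero, ← hz, e.constr_basis, e.constr_basis]
              simp
            · rw [he, map_add, map_smul, e.constr_basis, e.constr_basis, e.constr_basis]
              simp only [Option.elim_some]
              rw [hE]
              split_ifs with h0
              · rw [map_smul, ← hz, e.constr_basis]
                simp
              · simp)
        refine ⟨ρ, fun m => ?_, fun y hy => ?_⟩
        · rw [hρ, e.constr_basis]
          rfl
        · rw [Set.mem_singleton_iff.1 hy, hρ, ← hz, e.constr_basis]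
          rfl)
    exact ⟨Q, h1, h2 _ rfl, h3, h4⟩

end Pool.Agent.Results.MP_4da284_al.LocalizedWeylFails
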